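import Pool.Agent.TH101.RG.Surv
import Pool.Agent.K4H19.FQ.App2

set_option autoImplicit false
set_option maxHeartbeats 4000000

/-! # The covering of a window of length `l R(X)`, `R` Rankin's function, around a prime of a class -/

namespace Pool.Agent.K4H19.PR

open Finset Filter
open Pool.Agent.H378R2
open Pool.Agent.TH101.RG (V0 rsurvK)
open Pool.Agent.K4H19.FQ (KK KF mem_KK mem_KF)

open scoped Classical

/-- Rankin's function -/
noncomputable def RR (X : ℝ) : ℝ :=
  Real.log X * Real.log (Real.log X) * Real.log (Real.log (Real.log (Real.log X))) /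
    (Real.log (Real.log (Real.log X))) ^ 2

theorem ev_sq (c : ℝ) (hc : 0 < c) : ∀ᶠ A : ℝ in atTop, (Real.log A) ^ 2 ≤ c * A := by
  have h := (Real.isLittleO_pow_log_id_atTop (n := 2)).def hc
  filter_upwards [h, eventually_ge_atTop 1] with A h1 h2
  have h3 : 0 ≤ Real.log A := Real.log_nonneg h2
  simpa [abs_of_nonneg h3, abs_of_nonneg (show (0:ℝ) ≤ A by linarith)] using h1

theorem ev_A (l : ℝ) (hl : 0 < l) (q : ℕ) : ∀ᶠ A : ℝ in atTop, 100 ≤ A ∧ 40 * (Real.log A) ^ 2 ≤ A ∧
    2 ≤ Real.log (Real.log A) ∧ (Real.log A) ^ 2 ≤ l * A ∧ 24000 * l ≤ A ∧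
    40 * Real.log A * (Real.log q + 1) < A := by
  have t1 := Real.tendsto_log_atTop
  filter_upwards [eventually_ge_atTop (max 100 (24000 * l)), ev_sq (1 / 40) (by norm_num),
    (t1.comp t1).eventually_ge_atTop 2, ev_sq l hl,
    ev_sq (1 / (80 * (Real.log q + 1))) (by
      have : 0 ≤ Real.log q := Real.log_natCast_nonneg q
      positivity), t1.eventually_ge_atTop 1] with A h1 h2 h3 h4 h5 h6
  have hq : 0 ≤ Real.log q := Real.log_natCast_nonneg q
  have hA : 0 < A := by linarith [(le_max_left (100:ℝ) (24000 * l)).trans h1]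
  refine ⟨(le_max_left _ _).trans h1, by linarith, h3, h4, (le_max_right _ _).trans h1, ?_⟩
  have h7 : (Real.log A) ^ 2 * (80 * (Real.log q + 1)) ≤ A := by
    have h8 : 1 / (80 * (Real.log q + 1)) * A = A / (80 * (Real.log q + 1)) := by ring
    rw [h8, le_div_iff₀ (by positivity)] at h5
    exact h5
  have h8 : Real.log A ≤ (Real.log A) ^ 2 := by nlinarith
  have h9 : Real.log A * (80 * (Real.log q + 1)) ≤ (Real.log A) ^ 2 * (80 * (Real.log q + 1)) := by
    gcongr
  nlinarith

theorem sum_union_le' {s t : Finset ℕ} (f : ℕ → ℝ) (hf : ∀ i, 0 ≤ f i) :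
    ∑ i ∈ s ∪ t, f i ≤ ∑ i ∈ s, f i + ∑ i ∈ t, f i := by
  rw [← sum_union_inter]
  have : 0 ≤ ∑ i ∈ s ∩ t, f i := sum_nonneg fun i _ => hf i
  linarith

/-- The covering. -/
theorem covR (q : ℕ) (hq : 0 < q) : ∃ C : ℝ, 0 < C ∧ ∀ l : ℝ, 0 < l → ∀ᶠ X : ℝ in atTop,
    ∀ (ps : ℕ) (S : Finset ℕ), GoodP q ps → GoodS X S → ∀ a : ℕ, a.Coprime q →
    ∃ r : ℕ, r.Coprime (WW X S ps) ∧ (∀ p : ℕ, p.Prime → p ∣ q → p ∣ WW X S ps ∧ r ≡ a [MOD p]) ∧
      ((KK (WW X S ps) ⌊l * RR X⌋₊ (r : ZMod (WW X S ps))).card : ℝ) ≤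
        C * l * (Real.log X / Real.log (Real.log X)) := by
  obtain ⟨C, hC, y₀, hrs⟩ := rsurvK 1 (2 + q) 8 (by norm_num)
  refine ⟨24 * C, by positivity, fun l hl => ?_⟩
  have t1 := Real.tendsto_log_atTop
  have t2 : Tendsto (fun y : ℝ => Real.log (Real.log y)) atTop atTop := t1.comp t1
  filter_upwards [t2.eventually (ev_A l hl q), t1.eventually_ge_atTop (2000 * ((y₀ : ℝ) + 2)),
    t2.eventually_ge_atTop ((q : ℝ) + 1), t2.eventually_ge_atTop 16,
    eventually_gt_atTop 0] with X e1 e2 e3 e4 hX0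
  intro ps S hps hS a ha
  obtain ⟨a1, a2, a3, a4, a5, a6⟩ := e1
  set T := Real.log X with hT
  have hT0 : 0 < T := by
    have : (0 : ℝ) ≤ y₀ := Nat.cast_nonneg _
    linarith
  set A := Real.log T with hA
  have hTe : T = Real.exp A := by rw [hA, Real.exp_log hT0]
  set B := Real.log A with hB
  set D := Real.log B with hD
  have hRR : RR X = T * A * D / B ^ 2 := rfl
  have hA0 : 0 < A := by linarith
  have hB0 : 0 < B := by
    by_contra h
    push Not at h
    have : D = Real.log (-B) := by rw [hD, Real.log_neg_eq_log]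
    have h1 : Real.log 100 ≤ B := by rw [hB]; exact Real.log_le_log (by norm_num) a1
    have h2 : 0 < Real.log 100 := Real.log_pos (by norm_num)
    linarith
  have hD0 : 0 < D := by linarith
  have hBD : D ≤ B := by
    have := Real.log_le_sub_one_of_pos hB0
    rw [hD]; linarith
  have hB2 : 2 ≤ B := by linarith
  have hlog2 : Real.log 2 ≤ 1 := by linarith [Real.log_two_lt_d9]
  -- y
  set y := yy X with hy
  have hyT : (y : ℝ) ≤ T / 1000 := Nat.floor_le (by positivity)
  have hyT2 : T / 2000 ≤ y := by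
    have h1 : T / 1000 < (y : ℝ) + 1 := Nat.lt_floor_add_one _
    have h2 : 1 ≤ T / 2000 := by
      have : (0 : ℝ) ≤ y₀ := Nat.cast_nonneg _
      linarith
    linarith [show T / 1000 = T / 2000 + T / 2000 by ring]
  have hyy0 : y₀ ≤ y := by
    have : (y₀ : ℝ) ≤ y := by linarith
    exact_mod_cast this
  have hy2 : (2 : ℝ) ≤ y := by
    have : (0 : ℝ) ≤ y₀ := Nat.cast_nonneg _
    linarith
  have hy0 : (0 : ℝ) < y := by linarith
  have hlog2000 : Real.log 2000 ≤ A / 2 := by
    have h1 : Real.log 2000 ≤ 8 := by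
      rw [Real.log_le_iff_le_exp (by norm_num)]
      have e1 := Real.exp_one_gt_d9
      have e2 : Real.exp 8 = (Real.exp 1) ^ 8 := by rw [← Real.exp_nat_mul]; norm_num
      rw [e2]
      calc (2000:ℝ) ≤ (27 / 10) ^ 8 := by norm_num
        _ ≤ (Real.exp 1) ^ 8 := pow_le_pow_left₀ (by norm_num) (by linarith) 8
    linarith
  have hly1 : Real.log y ≤ A := by
    rw [hA]; apply Real.log_le_log hy0; linarith
  have hly2 : A / 2 ≤ Real.log y := by
    have h1 : Real.log (T / 2000) ≤ Real.log y := Real.log_le_log (by positivity) hyT2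
    rw [Real.log_div hT0.ne' (by norm_num)] at h1
    linarith
  have hly0 : 0 < Real.log y := by linarith
  have hl2y1 : Real.log (Real.log y) ≤ B := Real.log_le_log hly0 hly1
  have hl2y2 : B / 2 ≤ Real.log (Real.log y) := by
    have h1 : Real.log (A / 2) ≤ Real.log (Real.log y) := Real.log_le_log (by positivity) hly2
    rw [Real.log_div hA0.ne' (by norm_num)] at h1
    linarith
  have hl2y0 : 0 < Real.log (Real.log y) := by linarith
  have hl3y2 : D / 2 ≤ Real.log (Real.log (Real.log y)) := by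
    have h1 : Real.log (B / 2) ≤ Real.log (Real.log (Real.log y)) := Real.log_le_log (by positivity) hl2y2
    rw [Real.log_div hB0.ne' (by norm_num)] at h1
    linarith
  have hV0 : A / (40 * B) ≤ V0 y := by
    unfold V0
    rw [div_le_div_iff₀ (by positivity) (by positivity)]
    have h1 : A / 2 * (D / 2) ≤ Real.log y * Real.log (Real.log (Real.log y)) := by gcongr
    have h2 : A * (10 * Real.log (Real.log y)) ≤ A * (10 * B) := by gcongr
    have h3 : A / 2 * (2 / 2) ≤ A / 2 * (D / 2) := by gcongr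
    have h4 : A / 2 * (40 * B) ≤ Real.log y * Real.log (Real.log (Real.log y)) * (40 * B) := by
      apply mul_le_mul_of_nonneg_right _ (by positivity)
      linarith
    nlinarith
  have hVB : B ≤ V0 y := by
    refine le_trans ?_ hV0
    rw [le_div_iff₀ (by positivity)]
    nlinarith
  have hVq : Real.log q < V0 y := by
    refine lt_of_lt_of_le ?_ hV0
    rw [lt_div_iff₀ (by positivity)]
    nlinarith
  -- the window
  set F : ℕ := ⌊l * RR X⌋₊ with hF
  have hRR0 : 0 ≤ l * RR X := by rw [hRR]; positivity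
  have hFle : (F : ℝ) ≤ l * RR X := Nat.floor_le hRR0
  have hT1 : T ≤ l * RR X := by
    rw [hRR, mul_div_assoc', le_div_iff₀ (by positivity)]
    have h1 : T * B ^ 2 ≤ T * (l * A) := by gcongr
    have h2 : T * (l * A) ≤ T * (l * A) * D := by
      have : 0 ≤ T * (l * A) := by positivity
      nlinarith
    linarith [show l * (T * A * D) = T * (l * A) * D by ring]
  have hyF : y ≤ F := by
    rw [hF]
    apply Nat.le_floor
    linarith
  have hF0 : F ≠ 0 := by
    have : (0:ℝ) < y := hy0
    have : 0 < y := by exact_mod_cast this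
    omega
  obtain ⟨q0, hq0p, hq01, hq02⟩ := Nat.exists_prime_lt_and_le_two_mul F hF0
  set H : ℕ := q0 + F with hH
  have hH3 : (H : ℝ) ≤ 3 * F := by
    have : H ≤ 3 * F := by omega
    exact_mod_cast this
  have hyH : y ≤ H := by omega
  have hHy : (H : ℝ) ≤ y * (Real.log y) ^ 2 := by
    have h1 : T / 2000 * (A / 2) ^ 2 ≤ y * (Real.log y) ^ 2 := by gcongr
    refine le_trans ?_ h1
    have h2 : 3 * (l * RR X) ≤ T / 2000 * (A / 2) ^ 2 := by
      rw [hRR, mul_div_assoc', mul_div_assoc', div_le_iff₀ (by positivity)]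
      have h3 : D ≤ B ^ 2 := by nlinarith
      have h4 : 3 * (l * (T * A * D)) = 3 * l * D * (T * A) := by ring
      have h5 : T / 2000 * (A / 2) ^ 2 * B ^ 2 = A / 8000 * B ^ 2 * (T * A) := by ring
      rw [h4, h5]
      apply mul_le_mul_of_nonneg_right _ (by positivity)
      have h6 : 3 * l ≤ A / 8000 := by linarith
      exact mul_le_mul h6 h3 hD0.le (by positivity)
    linarith
  -- the set of the omitted primes
  set Ps : Finset ℕ := if ps.Prime then {ps} else ∅ with hPs
  have hPs2 : ∀ p ∈ Ps, p = ps ∧ ps.Prime := by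
    intro p hp
    rw [hPs] at hp
    split_ifs at hp with h
    · exact ⟨mem_singleton.1 hp, h⟩
    · simp at hp
  set FS : Finset ℕ := (S ∪ Ps) ∪ q.primeFactors with hFS
  have hpos : ∀ i : ℕ, 0 ≤ (1 : ℝ) / (i : ℝ) := fun i => by positivity
  have hFSp : ∀ p ∈ FS, p.Prime := by
    intro p hp
    rw [hFS, mem_union, mem_union] at hp
    rcases hp with (h | h) | h
    · exact (hS.1 p h).1
    · obtain ⟨h1, h2⟩ := hPs2 p h
      rw [h1]; exact h2
    · exact Nat.prime_of_mem_primeFactors h
  have hSsum : ∑ p ∈ S, (1 : ℝ) / p ≤ 6 / A ^ 2 := hS.2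
  have hPs1 : Ps.card ≤ 1 := by
    rw [hPs]
    split_ifs <;> simp
  have hFSsum : ∑ p ∈ FS, (1 : ℝ) / p ≤ 2 + q := by
    have h1 : ∑ p ∈ FS, (1 : ℝ) / p ≤ (∑ p ∈ S, (1 : ℝ) / p + ∑ p ∈ Ps, (1 : ℝ) / p) +
        ∑ p ∈ q.primeFactors, (1 : ℝ) / p := by
      refine (sum_union_le' _ hpos).trans ?_
      apply add_le_add_left
      exact sum_union_le' _ hpos
    have h2 : ∑ p ∈ Ps, (1 : ℝ) / p ≤ 1 := by
      rw [hPs]
      split_ifs with h
      · rw [sum_singleton, div_le_one (by exact_mod_cast h.pos)]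
        exact_mod_cast h.one_lt.le
      · simp
    have h3 : ∑ p ∈ S, (1 : ℝ) / p ≤ 1 := by
      refine hSsum.trans ?_
      rw [div_le_one (by positivity)]
      nlinarith
    have h4 : ∑ p ∈ q.primeFactors, (1 : ℝ) / p ≤ q := by
      have h5 : ∑ p ∈ q.primeFactors, (1 : ℝ) / p ≤ q.primeFactors.card • (1:ℝ) := by
        apply sum_le_card_nsmul
        intro p hp
        have h6 := (Nat.prime_of_mem_primeFactors hp)
        rw [div_le_one (by exact_mod_cast h6.pos)]
        exact_mod_cast h6.one_lt.le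
      have h6 : q.primeFactors.card ≤ q := by
        have h7 : q.primeFactors ⊆ Icc 1 q := by
          intro p hp
          rw [mem_Icc]
          exact ⟨(Nat.prime_of_mem_primeFactors hp).pos, Nat.le_of_mem_primeFactors hp⟩
        have := card_le_card h7
        rwa [Nat.card_Icc, Nat.add_sub_cancel] at this
      have h7 : (q.primeFactors.card : ℝ) ≤ q := by exact_mod_cast h6
      rw [nsmul_eq_mul, mul_one] at h5
      linarith
    linarith
  have hFStail : ∑ p ∈ FS.filter (fun p : ℕ => V0 y < Real.log p), (1 : ℝ) / p ≤ 8 / Real.log y := by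
    have hsub : FS.filter (fun p : ℕ => V0 y < Real.log p) ⊆
        S ∪ Ps.filter (fun p : ℕ => V0 y < Real.log p) := by
      intro p hp
      rw [mem_filter, hFS, mem_union, mem_union] at hp
      rw [mem_union, mem_filter]
      rcases hp.1 with (h | h) | h
      · exact Or.inl h
      · exact Or.inr ⟨h, hp.2⟩
      · exfalso
        have h1 : Real.log p ≤ Real.log q := by
          apply Real.log_le_log
          · exact_mod_cast (Nat.prime_of_mem_primeFactors h).pos
          · exact_mod_cast Nat.le_of_mem_primeFactors h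
        linarith [hp.2]
    refine (sum_le_sum_of_subset_of_nonneg hsub (fun i _ _ => hpos i)).trans ?_
    refine (sum_union_le' _ hpos).trans ?_
    have h1 : ∑ p ∈ S, (1 : ℝ) / p ≤ 6 / Real.log y := by
      refine hSsum.trans ?_
      apply div_le_div_of_nonneg_left (by norm_num) hly0
      nlinarith
    have h2 : ∑ p ∈ Ps.filter (fun p : ℕ => V0 y < Real.log p), (1 : ℝ) / p ≤ 1 / Real.log y := by
      have h4 : ∑ p ∈ Ps.filter (fun p : ℕ => V0 y < Real.log p), (1 : ℝ) / p ≤
          (Ps.filter (fun p : ℕ => V0 y < Real.log p)).card • (1 / Real.log y) := by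
        apply sum_le_card_nsmul
        intro p hp
        rw [mem_filter] at hp
        obtain ⟨h5, h6⟩ := hPs2 p hp.1
        have hp0 : (0:ℝ) < p := by rw [h5]; exact_mod_cast h6.pos
        apply one_div_le_one_div_of_le hly0
        have h7 : Real.exp (V0 y) < p := (Real.lt_log_iff_exp_lt hp0).1 hp.2
        have h8 : Real.exp (Real.log (Real.log y)) ≤ Real.exp (V0 y) := Real.exp_le_exp.2 (by linarith)
        rw [Real.exp_log hly0] at h8
        linarith
      have h3 : (Ps.filter (fun p : ℕ => V0 y < Real.log p)).card ≤ 1 :=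
        (card_le_card (filter_subset _ _)).trans hPs1
      rw [nsmul_eq_mul] at h4
      have h5 : ((Ps.filter (fun p : ℕ => V0 y < Real.log p)).card : ℝ) ≤ 1 := by exact_mod_cast h3
      have h6 : 0 ≤ 1 / Real.log y := by positivity
      nlinarith
    have h3 : 6 / Real.log y + 1 / Real.log y ≤ 8 / Real.log y := by
      rw [← add_div]
      apply div_le_div_of_nonneg_right _ hly0.le
      norm_num
    linarith
  obtain ⟨b, hb1, hb2⟩ := hrs y hyy0 FS hFSp hFSsum hFStail H hyH hHy (fun _ _ => q0) (by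
    intro j p hp hpy _ _ hd
    have := (Nat.prime_dvd_prime_iff_eq hp hq0p).1 hd
    omega)
  -- the class
  have hPW : ∀ p ∈ PW X S ps, p.Prime ∧ p ≤ y ∧ p ∉ S ∧ p ≠ ps := by
    intro p hp
    unfold PW at hp
    rw [mem_filter, mem_Icc] at hp
    exact ⟨hp.2.1, hp.1.2, hp.2.2⟩
  have hnF : ∀ p ∈ PW X S ps, ¬ p ∣ q → p ∉ FS := by
    intro p hp hpq hpF
    rw [hFS, mem_union, mem_union] at hpF
    obtain ⟨h1, h2, h3, h4⟩ := hPW p hp
    rcases hpF with (h | h) | h
    · exact h3 h
    · exact h4 (hPs2 p h).1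
    · exact hpq (Nat.dvd_of_mem_primeFactors h)
  obtain ⟨r, hr⟩ : ∃ r : ℕ, ∀ p ∈ PW X S ps, r ≡ (if p ∣ q then a else q0 + (p - b p)) [MOD p] := by
    have := Nat.chineseRemainderOfFinset (fun p => if p ∣ q then a else q0 + (p - b p)) (fun p => p)
      (PW X S ps) (fun p hp => (hPW p hp).1.ne_zero) (by
        intro p hp p' hp' hne
        exact (Nat.coprime_primes (hPW p hp).1 (hPW p' hp').1).2 hne)
    exact ⟨this.1, this.2⟩
  have hdvdW : ∀ p : ℕ, p.Prime → (p ∣ WW X S ps ↔ p ∈ PW X S ps) := by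
    intro p hp
    unfold WW
    constructor
    · intro h
      obtain ⟨p', hp', hpp⟩ := (Prime.dvd_finsetProd_iff hp.prime _).mp h
      have := (Nat.prime_dvd_prime_iff_eq hp (hPW p' hp').1).1 hpp
      rw [this]; exact hp'
    · intro h
      exact dvd_prod_of_mem _ h
  have hqP : ∀ p : ℕ, p.Prime → p ∣ q → p ∈ PW X S ps := by
    intro p hp hpq
    have hpq' : p ≤ q := Nat.le_of_dvd hq hpq
    have hpq2 : (p:ℝ) ≤ q := by exact_mod_cast hpq'
    unfold PW
    rw [mem_filter, mem_Icc]
    refine ⟨⟨hp.pos, ?_⟩, hp, ?_, ?_⟩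
    · have : (p:ℝ) ≤ y := by
        have h1 : A ≤ y := by
          have h2 : A ^ 2 ≤ T := by
            rw [hTe]
            have h3 := Real.quadratic_le_exp_of_nonneg hA0.le
            have h4 : A ^ 2 ≤ Real.exp A := by
              have h5 : 1 + A + A ^ 2 / 2 ≤ Real.exp A := h3
              have h6 : A ^ 3 / 6 ≤ Real.exp A := by
                have := Real.pow_div_factorial_le_exp A hA0.le 3
                simpa [Nat.factorial] using this
              nlinarith
            exact h4
          have h7 : A ^ 3 / 6 ≤ T := by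
            rw [hTe]
            have := Real.pow_div_factorial_le_exp A hA0.le 3
            simpa [Nat.factorial] using this
          have h8 : A ^ 4 / 24 ≤ T := by
            rw [hTe]
            have := Real.pow_div_factorial_le_exp A hA0.le 4
            simpa [Nat.factorial] using this
          have h9 : 48000 * A ≤ A ^ 4 := by nlinarith [pow_pos hA0 3, mul_pos hA0 hA0, pow_le_pow_left₀ (by norm_num) a1 3]
          linarith
        linarith
      exact_mod_cast this
    · intro h
      have h1 := (hS.1 p h).2.1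
      have h2 : (z2 X : ℝ) < p := by exact_mod_cast h1
      have h3 : (Real.log (Real.log X)) ^ 3 ≤ (z2 X : ℝ) := Nat.le_ceil _
      have h4 : A ≤ A ^ 3 := by nlinarith [mul_pos hA0 hA0]
      have h5 : A ^ 3 ≤ (z2 X : ℝ) := h3
      linarith
    · intro h
      rcases hps with h1 | h1
      · rw [h, h1] at hp
        exact Nat.not_prime_one hp
      · have := h1.2
        omega
  have hrb : ∀ p ∈ PW X S ps, ¬ p ∣ q → (p : ℤ) ∣ (r : ℤ) - (q0 - b p) := by
    intro p hp hpq
    have h1 := hr p hp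
    rw [if_neg hpq] at h1
    have h2 := (hb1 p (hPW p hp).1 (hPW p hp).2.1 (hnF p hp hpq)).1
    have h3 := (Nat.modEq_iff_dvd.1 h1.symm)
    push_cast [Nat.cast_sub h2.le] at h3
    have h4 : (r : ℤ) - (q0 - b p) = (r - (q0 + (p - b p))) + p := by ring
    rw [h4]
    exact dvd_add h3 (dvd_refl _)
  refine ⟨r, ?_, fun p hp hpq => ⟨(hdvdW p hp).2 (hqP p hp hpq), ?_⟩, ?_⟩
  · rw [Nat.coprime_iff_gcd_eq_one]
    by_contra hne
    obtain ⟨p, hp, hpd⟩ := Nat.exists_prime_and_dvd hne
    have h1 := hpd.trans (Nat.gcd_dvd_left _ _)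
    have h2 := (hdvdW p hp).1 (hpd.trans (Nat.gcd_dvd_right _ _))
    by_cases hpq : p ∣ q
    · have h3 := hr p h2
      rw [if_pos hpq] at h3
      have h4 : p ∣ a := (h3.dvd_iff (dvd_refl p)).1 h1
      have h5 := Nat.dvd_gcd h4 hpq
      rw [Nat.coprime_iff_gcd_eq_one.1 ha] at h5
      exact hp.one_lt.ne' (Nat.dvd_one.1 h5)
    · have h3 := hrb p h2 hpq
      have h4 := (hb1 p hp (hPW p h2).2.1 (hnF p h2 hpq)).2 0
      apply h4
      have h5 : (p : ℤ) ∣ (r : ℤ) := by exact_mod_cast h1
      have h6 : (p : ℤ) ∣ (q0 : ℤ) - b p := by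
        have := dvd_sub h5 h3
        have e : (r : ℤ) - (r - (q0 - b p)) = q0 - b p := by ring
        rwa [e] at this
      exact (Nat.modEq_iff_dvd.2 (by
        have := dvd_neg.2 h6
        have e : -((q0 : ℤ) - b p) = b p - q0 := by ring
        rwa [e] at this))
  · have h3 := hr p (hqP p hp hpq)
    rwa [if_pos hpq] at h3
  · -- the count
    have hcard : (KK (WW X S ps) F (r : ZMod (WW X S ps))).card ≤
        ((range (H + 1)).filter (fun k => ∀ p : ℕ, p.Prime → p ≤ y → p ∉ FS →
          ¬ k ≡ b p [MOD p])).card := by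
      apply card_le_card_of_injOn (fun k : ℤ => ((q0 : ℤ) + k).toNat)
      · intro k hk
        have hk' := mem_KK.1 (mem_coe.1 hk)
        obtain ⟨hk1, hk2⟩ := hk'
        obtain ⟨hk3, hk4⟩ := mem_KF.1 hk1
        rw [abs_le] at hk4
        have hnn : 0 ≤ (q0 : ℤ) + k := by omega
        rw [mem_coe, mem_filter, mem_range]
        have hlt : ((q0 : ℤ) + k).toNat < H + 1 := by omega
        refine ⟨hlt, ?_⟩
        intro p hp hpy hpF hmod
        have hpP : p ∈ PW X S ps := by
          unfold PW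
          rw [mem_filter, mem_Icc]
          refine ⟨⟨hp.pos, hpy⟩, hp, fun h => hpF ?_, fun h => hpF ?_⟩
          · rw [hFS, mem_union, mem_union]; exact Or.inl (Or.inl h)
          · rw [hFS, mem_union, mem_union]
            left; right
            rw [hPs, ← h, if_pos hp]
            simp
        have hpq : ¬ p ∣ q := by
          intro h
          apply hpF
          rw [hFS, mem_union]
          right
          rw [Nat.mem_primeFactors]
          exact ⟨hp, h, hq.ne'⟩
        have h1 := hrb p hpP hpq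
        have h2 : (p : ℤ) ∣ (q0 : ℤ) + k - b p := by
          have h3 := (Nat.modEq_iff_dvd.1 hmod.symm)
          rw [Int.toNat_of_nonneg hnn] at h3
          exact h3
        have h3 : (p : ℤ) ∣ (r : ℤ) + k := by
          have := dvd_add h1 h2
          have e : (r : ℤ) - (q0 - b p) + (q0 + k - b p) = r + k := by ring
          rwa [e] at this
        -- contradiction with the unit
        have h4 : IsUnit (((r : ℤ) + k : ℤ) : ZMod (WW X S ps)) := by
          push_cast
          exact hk2
        rw [ZMod.coe_int_isUnit_iff_isCoprime] at h4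
        have hpW : (p : ℤ) ∣ (WW X S ps : ℤ) := by exact_mod_cast (hdvdW p hp).2 hpP
        have h5 : IsCoprime (p : ℤ) (p : ℤ) := (h4.of_isCoprime_of_dvd_left hpW).of_isCoprime_of_dvd_right h3
        have h6 : IsUnit (p : ℤ) := isCoprime_self.1 h5
        exact (Nat.prime_iff_prime_int.1 hp).not_unit h6
      · intro k hk k' hk' hkk
        have h1 := (mem_KF.1 (mem_KK.1 (mem_coe.1 hk)).1).2
        have h2 := (mem_KF.1 (mem_KK.1 (mem_coe.1 hk')).1).2
        rw [abs_le] at h1 h2
        simp only at hkk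
        omega
    have hcard' : ((KK (WW X S ps) F (r : ZMod (WW X S ps))).card : ℝ) ≤
        C * H * (Real.log (Real.log y)) ^ 2 /
        ((Real.log y) ^ 2 * Real.log (Real.log (Real.log y))) :=
      le_trans (by exact_mod_cast hcard) hb2
    refine hcard'.trans ?_
    have hl30 : 0 < Real.log (Real.log (Real.log y)) := by linarith
    rw [div_le_iff₀ (by positivity)]
    have h1 : C * H * (Real.log (Real.log y)) ^ 2 ≤ C * (3 * (l * RR X)) * B ^ 2 := by
      have : (H:ℝ) ≤ 3 * (l * RR X) := by linarith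
      gcongr
    refine h1.trans ?_
    have h2 : (A / 2) ^ 2 * (D / 2) ≤ (Real.log y) ^ 2 * Real.log (Real.log (Real.log y)) := by gcongr
    have h3 : 24 * C * l * (T / A) * ((A / 2) ^ 2 * (D / 2)) ≤
        24 * C * l * (T / A) * ((Real.log y) ^ 2 * Real.log (Real.log (Real.log y))) := by
      apply mul_le_mul_of_nonneg_left h2 (by positivity)
    refine le_trans (le_of_eq ?_) h3
    rw [hRR]
    field_simp
    ring

end Pool.Agent.K4H19.PR
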