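import Pool.Agent.K4H19.PR.Cov

set_option autoImplicit false
set_option maxHeartbeats 4000000

/-! # A positive proportion of isolated primes in a residue class to the record modulus -/

namespace Pool.Agent.K4H19.PR

open Finset Filter ArithmeticFunction
open Pool.Agent.H378R2
open Pool.Agent.K4H19.FQ

open scoped Classical

theorem WW_le' (X : ℝ) (hX : 1 ≤ X) (S : Finset ℕ) (ps : ℕ) :
    (WW X S ps : ℝ) ≤ Real.exp (Real.log X / 700) := by
  have hT0 : 0 ≤ Real.log X := Real.log_nonneg hX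
  have h1 : WW X S ps ≤ primorial (yy X) := by
    unfold WW primorial
    apply Finset.prod_le_prod_of_subset_of_one_le'
    · intro p hp
      unfold PW at hp
      rw [mem_filter, mem_Icc] at hp
      rw [mem_filter, mem_range]
      exact ⟨by omega, hp.2.1⟩
    · intro p hp _
      rw [mem_filter] at hp
      exact hp.2.pos
  have h2 : primorial (yy X) ≤ 4 ^ (yy X) := primorial_le_four_pow _
  have h3 : (WW X S ps : ℝ) ≤ (4:ℝ) ^ (yy X) := by exact_mod_cast h1.trans h2
  refine h3.trans ?_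
  have h4 : ((yy X : ℕ) : ℝ) ≤ Real.log X / 1000 := Nat.floor_le (by positivity)
  have h5 : Real.log 4 ≤ 10 / 7 := by
    have : Real.log 4 = 2 * Real.log 2 := by
      rw [show (4 : ℝ) = 2 ^ 2 by norm_num, Real.log_pow]; push_cast; ring
    rw [this]
    linarith [Real.log_two_lt_d9]
  have h6 : (4:ℝ) ^ (yy X) = Real.exp (yy X * Real.log 4) := by
    rw [mul_comm, Real.exp_mul, Real.exp_log (by norm_num), Real.rpow_natCast]
  rw [h6]
  apply Real.exp_le_exp.2
  have h7 : 0 ≤ Real.log 4 := Real.log_nonneg (by norm_num)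
  have h8 : (yy X : ℝ) * Real.log 4 ≤ Real.log X / 1000 * (10 / 7) := by
    apply mul_le_mul h4 h5 h7 (by positivity)
  linarith

/-- from the weighted sum to the number of isolated primes, in a class -/
theorem count_iso' (X : ℝ) (F : ℕ) (hX : 1 ≤ X) (P : ℕ → Prop) :
    ∑ n ∈ (Icc 1 ⌊3 * X⌋₊).filter (fun n : ℕ => P n ∧ X < n ∧ Iso F n),
      Phi (n / X) * vonMangoldt n ≤
    (((Icc 1 ⌊3 * X⌋₊).filter (fun n : ℕ => n.Prime ∧ P n ∧ X < n ∧ Iso F n)).card : ℝ) *
      Real.log (3 * X) + 2 * Real.sqrt (3 * X) * Real.log (3 * X) := by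
  have h0 : ∀ n : ℕ, Phi (n / X) * vonMangoldt n ≤ vonMangoldt n := by
    intro n
    have := mul_le_mul_of_nonneg_right (Phi_le1 ((n:ℝ) / X))
      (ArithmeticFunction.vonMangoldt_nonneg (n := n))
    linarith
  have h1 : ∑ n ∈ (Icc 1 ⌊3 * X⌋₊).filter (fun n : ℕ => P n ∧ X < n ∧ Iso F n),
      Phi (n / X) * vonMangoldt n ≤
      ∑ n ∈ (Icc 1 ⌊3 * X⌋₊).filter (fun n : ℕ => n.Prime ∧ P n ∧ X < n ∧ Iso F n), vonMangoldt n +
      ∑ n ∈ (Icc 1 ⌊3 * X⌋₊).filter (fun n => ¬ n.Prime), vonMangoldt n := by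
    rw [Finset.sum_filter, Finset.sum_filter, Finset.sum_filter, ← Finset.sum_add_distrib]
    apply Finset.sum_le_sum
    intro n _
    have h3 : 0 ≤ vonMangoldt n := ArithmeticFunction.vonMangoldt_nonneg
    have h4 := h0 n
    by_cases hn : n.Prime
    · by_cases h5 : P n ∧ X < n ∧ Iso F n
      · have e1 : n.Prime ∧ P n ∧ X < n ∧ Iso F n := ⟨hn, h5⟩
        rw [if_pos h5, if_pos e1, if_neg (not_not.2 hn), add_zero]
        exact h4
      · have e1 : ¬ (n.Prime ∧ P n ∧ X < n ∧ Iso F n) := fun h => h5 h.2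
        rw [if_neg h5, if_neg e1, if_neg (not_not.2 hn), add_zero]
    · have e1 : ¬ (n.Prime ∧ P n ∧ X < n ∧ Iso F n) := fun h => hn h.1
      rw [if_neg e1, if_pos hn, zero_add]
      by_cases h5 : P n ∧ X < n ∧ Iso F n
      · rw [if_pos h5]
        exact h4
      · rw [if_neg h5]
        exact h3
  have h2 : ∑ n ∈ (Icc 1 ⌊3 * X⌋₊).filter (fun n : ℕ => n.Prime ∧ P n ∧ X < n ∧ Iso F n),
      vonMangoldt n ≤
      (((Icc 1 ⌊3 * X⌋₊).filter (fun n : ℕ => n.Prime ∧ P n ∧ X < n ∧ Iso F n)).card : ℝ) *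
      Real.log (3 * X) := by
    calc ∑ n ∈ (Icc 1 ⌊3 * X⌋₊).filter (fun n : ℕ => n.Prime ∧ P n ∧ X < n ∧ Iso F n), vonMangoldt n
        ≤ ∑ _n ∈ (Icc 1 ⌊3 * X⌋₊).filter (fun n : ℕ => n.Prime ∧ P n ∧ X < n ∧ Iso F n),
          Real.log (3 * X) := by
          apply Finset.sum_le_sum
          intro n hn
          rw [Finset.mem_filter, Finset.mem_Icc] at hn
          refine ArithmeticFunction.vonMangoldt_le_log.trans ?_
          apply Real.log_le_log
          · have : 0 < n := hn.1.1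
            exact_mod_cast this
          · exact (Nat.le_floor_iff (by linarith)).1 hn.1.2
      _ = _ := by rw [Finset.sum_const, nsmul_eq_mul]
  have h3 := nonprime_sum (3 * X) (by linarith)
  linarith

theorem ev_exp (c : ℝ) (hc : 0 ≤ c) : ∀ᶠ t : ℝ in atTop, c * t ≤ Real.exp (t / 4) := by
  have h2 := (Real.isLittleO_pow_exp_atTop (n := 1)).def (show (0:ℝ) < 1 / (4 * (c + 1)) by positivity)
  have h3 : Tendsto (fun t : ℝ => t / 4) atTop atTop := tendsto_id.atTop_div_const (by norm_num)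
  filter_upwards [h3.eventually h2, eventually_ge_atTop (0:ℝ)] with t ht ht0
  rw [pow_one, Real.norm_of_nonneg (by positivity), Real.norm_of_nonneg (Real.exp_pos _).le,
    div_mul_eq_mul_div, one_mul, le_div_iff₀ (by positivity)] at ht
  nlinarith

theorem iso_class (q : ℕ) (hq : 0 < q) (l : ℝ) (hl : 0 < l) : ∃ κ : ℝ, 0 < κ ∧ ∀ᶠ X : ℝ in atTop,
    ∀ a : ℕ, a.Coprime q → ∃ W b : ℕ, 0 < W ∧ (W : ℝ) ≤ Real.exp (Real.log X / 700) ∧ b.Coprime W ∧
      (∀ p : ℕ, p.Prime → p ∣ q → p ∣ W ∧ b ≡ a [MOD p]) ∧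
      κ * (X / ((W.totient : ℝ) * Real.log X)) ≤
        (((Icc 1 ⌊3 * X⌋₊).filter (fun n : ℕ => n.Prime ∧ n ≡ b [MOD W] ∧ X < n ∧
          Iso ⌊l * RR X⌋₊ n)).card : ℝ) := by
  obtain ⟨c₂, e₀, L₀, hc₂, he₀, hL₀, hcov⟩ := cov6S
  obtain ⟨C, hC, hcv⟩ := covR q hq
  obtain ⟨X₁, hX₁⟩ := bv_strong q
  obtain ⟨e, he⟩ : ∃ e : ℝ, e = max e₀ (100 * C * l / c₂) := ⟨_, rfl⟩
  have hee₀ : e₀ ≤ e := he ▸ le_max_left _ _
  have heC : 100 * C * l / c₂ ≤ e := he ▸ le_max_right _ _
  obtain ⟨Lo, hLo⟩ : ∃ Lo : ℝ, Lo = Real.exp (e ^ 2 * Real.exp e) := ⟨_, rfl⟩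
  have hLo0 : 0 < Lo := hLo ▸ Real.exp_pos _
  refine ⟨1 / (1600 * Lo), by positivity, ?_⟩
  have hlog := Real.tendsto_log_atTop
  have hll : Tendsto (fun X : ℝ => Real.log (Real.log X)) atTop atTop := hlog.comp hlog
  filter_upwards [eventually_ge_atTop X₁, eventually_ge_atTop (4:ℝ), LP_ge,
      hlog.eventually ev_a, hlog.eventually (ev_b l hl.le), hlog.eventually ev_c,
      hlog.eventually (ev_e' l hl.le), hcv l hl, hll.eventually (ev_A l hl q),
      hlog.eventually_ge_atTop (100 * L₀ + 40000), hll.eventually_ge_atTop (10 + 200 * e),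
      hlog.eventually (ev_exp (12800 * Lo) (by positivity))] with
      X g1 g2 g3 g4 g5 g6 g8 gc gA g9 g10 g11
  intro a ha
  obtain ⟨g8a, g8b⟩ := g8
  obtain ⟨ps, S, hP, hps, hS, hbv⟩ := hX₁ X g1
  obtain ⟨b, hbW, hbq, hbK⟩ := gc ps S hP hS a ha
  set t : ℝ := Real.log X with ht
  set A : ℝ := Real.log t with hA
  set L : ℝ := t / 100 with hL
  have hX0 : 0 < X := by linarith
  have hXt : Real.exp t = X := Real.exp_log hX0
  have ht0 : 40000 ≤ t := by linarith
  have htpos : 0 < t := by linarith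
  have hL400 : 400 ≤ L := by rw [hL]; linarith
  have hLpos : 0 < L := by linarith
  have hLL₀ : L₀ ≤ L := by rw [hL]; linarith
  have hel : 1 ≤ e := he₀.trans hee₀
  have he0 : 0 < e := by linarith
  -- logarithm of `L`
  have hlogL : Real.log L = A - Real.log 100 := by
    rw [hL, Real.log_div htpos.ne' (by norm_num)]
  have hlog100 : Real.log 100 ≤ 5 := by
    rw [Real.log_le_iff_le_exp (by norm_num)]
    have e1 := Real.exp_one_gt_d9
    have e2 : Real.exp 5 = (Real.exp 1) ^ 5 := by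
      rw [← Real.exp_nat_mul]; norm_num
    rw [e2]
    calc (100:ℝ) ≤ (27 / 10) ^ 5 := by norm_num
      _ ≤ (Real.exp 1) ^ 5 := pow_le_pow_left₀ (by norm_num) (by linarith) 5
  have hlog100' : 0 ≤ Real.log 100 := Real.log_nonneg (by norm_num)
  have hlogL1 : A / 2 ≤ Real.log L := by rw [hlogL]; linarith
  have hlogL2 : Real.log L ≤ A := by rw [hlogL]; linarith
  have hlogLpos : 0 < Real.log L := by linarith
  have heL : e ≤ (1 / 2) * Real.log L := by linarith
  -- the exceptional prime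
  have hpsL : Real.log ps ≤ L ^ (1 / 4 : ℝ) := by
    have h1 : Real.log ps ≤ tt X := by
      rcases Nat.eq_zero_or_pos ps with h0 | h0
      · rw [h0]
        simp only [Nat.cast_zero, Real.log_zero]
        unfold tt
        positivity
      · have h1 : (0:ℝ) < ps := by exact_mod_cast h0
        rw [Real.log_le_iff_le_exp h1]
        exact hps
    refine h1.trans ?_
    unfold tt
    exact g6
  have hcovX := hcov L hLL₀ e hee₀ heL ps hpsL
  -- the modulus
  set W : ℕ := WW X S ps with hW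
  have hPprime : ∀ p ∈ PW X S ps, p.Prime ∧ (p:ℝ) ≤ t / 1000 := by
    intro p hp
    unfold PW at hp
    rw [Finset.mem_filter, Finset.mem_Icc] at hp
    refine ⟨hp.2.1, ?_⟩
    have h1 : (p:ℝ) ≤ (yy X : ℝ) := by exact_mod_cast hp.1.2
    have h2 : (yy X : ℝ) ≤ t / 1000 := Nat.floor_le (by positivity)
    exact h1.trans h2
  have hWpos : 0 < W := by
    rw [hW]
    unfold WW
    exact Finset.prod_pos fun p hp => (hPprime p hp).1.pos
  have : NeZero W := ⟨hWpos.ne'⟩
  have hWle : ∀ p : ℕ, p.Prime → p ∣ W → (p:ℝ) ≤ t / 1000 := by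
    intro p hp hpd
    rw [hW] at hpd
    unfold WW at hpd
    obtain ⟨q', hq', hpq⟩ := (Prime.dvd_finsetProd_iff hp.prime _).mp hpd
    have := (Nat.prime_dvd_prime_iff_eq hp (hPprime q' hq').1).1 hpq
    rw [this]
    exact (hPprime q' hq').2
  have hW700 : (W:ℝ) ≤ Real.exp (t / 700) := WW_le' X (by linarith) S ps
  -- the window
  set F : ℕ := ⌊l * RR X⌋₊ with hF
  have hRRle : 0 ≤ RR X ∧ RR X ≤ A * t := by
    obtain ⟨a1, a2, a3, a4, a5, a6⟩ := gA
    have hB0 : 0 < Real.log A := Real.log_pos (by linarith)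
    have hD0 : 0 < Real.log (Real.log A) := by linarith
    have hDB : Real.log (Real.log A) ≤ Real.log A := by
      have := Real.log_le_sub_one_of_pos hB0
      linarith
    have hA0 : 0 < A := by linarith
    have h1 : RR X = t * A * Real.log (Real.log A) / (Real.log A) ^ 2 := rfl
    rw [h1]
    refine ⟨by positivity, ?_⟩
    rw [div_le_iff₀ (by positivity)]
    have h2 : Real.log (Real.log A) ≤ (Real.log A) ^ 2 := by nlinarith
    have h3 : 0 ≤ t * A := by positivity
    calc t * A * Real.log (Real.log A) ≤ t * A * (Real.log A) ^ 2 := by gcongr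
      _ = _ := by ring
  have hF2 : (F:ℝ) ≤ l * (A * t) := by
    have h1 : (F:ℝ) ≤ l * RR X := Nat.floor_le (mul_nonneg hl.le hRRle.1)
    refine h1.trans ?_
    apply mul_le_mul_of_nonneg_left hRRle.2 hl.le
  set w : ℝ := L ^ (9 / 8 : ℝ) with hw
  have hwL : L ≤ w := by
    calc L = L ^ (1:ℝ) := (Real.rpow_one L).symm
      _ ≤ L ^ (9 / 8 : ℝ) := Real.rpow_le_rpow_of_exponent_le (by linarith) (by norm_num)
  have hFw : 2 * (F:ℝ) ≤ w := by linarith
  have hWw : ∀ p : ℕ, p.Prime → p ∣ W → (p:ℝ) ≤ w := by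
    intro p hp hpd
    have := hWle p hp hpd
    have h1 : t / 1000 ≤ L := by rw [hL]; linarith
    linarith
  have hXL : Real.exp L ≤ X - F := by rw [← hXt]; linarith
  have hWX : ∀ p : ℕ, p.Prime → p ∣ W → (p:ℝ) ≤ X - F := by
    intro p hp hpd
    have := hWle p hp hpd
    have h1 : t / 1000 ≤ t := by linarith
    have h2 := Real.exp_pos (t / 100)
    rw [← hXt]
    linarith
  set Bd : ℝ := c₂ * (e * L / Real.log L) with hBd
  have hKB : ((KK W F (b : ZMod W)).card : ℝ) ≤ Bd := by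
    refine hbK.trans ?_
    have hA0 : 0 < A := by linarith
    rw [hBd, hL]
    have h1 : C * l ≤ c₂ * e / 100 := by
      rw [div_le_iff₀ hc₂] at heC
      linarith
    calc C * l * (t / A) ≤ c₂ * e / 100 * (t / A) := by gcongr
      _ = c₂ * (e * (t / 100) / A) := by ring
      _ ≤ c₂ * (e * (t / 100) / Real.log L) := by gcongr
  -- the errors
  obtain ⟨bm, hbm1, hbm2⟩ := exists_bmax X W hWpos
  have hbvX := hbv bm hbm1
  have hLP : 0 < LP X := lt_of_lt_of_le (by positivity) g3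
  have hφ : (0:ℝ) < W.totient := by exact_mod_cast Nat.totient_pos.2 hWpos
  have hexpL : Real.exp L = X ^ (1 / 100 : ℝ) := by
    rw [← hXt, ← Real.exp_mul, hL]
    congr 1
    ring
  have hsumE : ∑ q ∈ QS w (Real.exp L) ps, |EPhi X (W * q) (bm q)| ≤
      X / ((W.totient : ℝ) * Real.exp (Real.sqrt (tt X))) := by
    refine le_trans ?_ hbvX
    apply Finset.sum_le_sum_of_subset_of_nonneg
    · intro q hq
      unfold QS at hq
      rw [Finset.mem_filter, Finset.mem_Icc, hexpL] at hq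
      rw [Finset.mem_filter, Finset.mem_Icc]
      refine ⟨hq.1, hq.2.1, ?_⟩
      apply Nat.Coprime.mul_right
      · rw [Nat.coprime_iff_gcd_eq_one]
        by_contra hne
        obtain ⟨p, hp, hpd⟩ := Nat.exists_prime_and_dvd hne
        have h1 := (hq.2.2 p hp (hpd.trans (Nat.gcd_dvd_left _ _))).1
        have h2 := hWw p hp (hpd.trans (Nat.gcd_dvd_right _ _))
        linarith
      · rcases hP with h1 | h1
        · rw [h1]
          exact Nat.coprime_one_right _
        · apply Nat.Coprime.symm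
          rw [h1.1.coprime_iff_not_dvd]
          intro hd
          exact (hq.2.2 ps h1.1 hd).2 rfl
    · intro q _ _
      exact abs_nonneg _
  have hfin : Real.exp (1000 * (Real.exp (2 * e) * (Real.log L) ^ 3)) *
      ∑ q ∈ QS w (Real.exp L) ps, |EPhi X (W * q) (bm q)| ≤
      (LP X / (W.totient : ℝ)) / 8 := by
    have h1 : 1000 * (Real.exp (2 * e) * (Real.log L) ^ 3) + 8 ≤ Real.sqrt (tt X) := by
      have h2 : Real.exp (2 * e) ≤ t ^ (1 / 100 : ℝ) := by
        rw [Real.rpow_def_of_pos htpos]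
        apply Real.exp_le_exp.2
        linarith
      have h3 : (Real.log L) ^ 3 ≤ A ^ 3 := pow_le_pow_left₀ hlogLpos.le hlogL2 3
      have h4 : Real.exp (2 * e) * (Real.log L) ^ 3 ≤ t ^ (1 / 100 : ℝ) * A ^ 3 :=
        mul_le_mul h2 h3 (by positivity) (by positivity)
      have h5 : Real.sqrt (tt X) = t ^ (1 / 40 : ℝ) := by
        unfold tt
        rw [Real.sqrt_eq_rpow, ← Real.rpow_mul htpos.le]
        norm_num
      rw [h5]
      linarith
    have h2 : Real.exp (1000 * (Real.exp (2 * e) * (Real.log L) ^ 3)) * Real.exp 8 ≤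
        Real.exp (Real.sqrt (tt X)) := by
      rw [← Real.exp_add]
      exact Real.exp_le_exp.2 h1
    have h8 : (1600:ℝ) ≤ Real.exp 8 := by
      have e1 := Real.exp_one_gt_d9
      have e2 : Real.exp 8 = (Real.exp 1) ^ 8 := by
        rw [← Real.exp_nat_mul]; norm_num
      rw [e2]
      calc (1600:ℝ) ≤ (27 / 10) ^ 8 := by norm_num
        _ ≤ (Real.exp 1) ^ 8 := pow_le_pow_left₀ (by norm_num) (by linarith) 8
    set M := Real.exp (1000 * (Real.exp (2 * e) * (Real.log L) ^ 3)) with hM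
    set Ex := Real.exp (Real.sqrt (tt X)) with hEx
    have hM0 : 0 < M := Real.exp_pos _
    have hEx0 : 0 < Ex := Real.exp_pos _
    have h3 : M * 1600 ≤ Ex := (mul_le_mul_of_nonneg_left h8 hM0.le).trans h2
    calc M * ∑ q ∈ QS w (Real.exp L) ps, |EPhi X (W * q) (bm q)|
        ≤ M * (X / ((W.totient : ℝ) * Ex)) := mul_le_mul_of_nonneg_left hsumE hM0.le
      _ = (X / (W.totient : ℝ)) * (M / Ex) := by
          field_simp
      _ ≤ (X / (W.totient : ℝ)) * (1 / 1600) := by
          apply mul_le_mul_of_nonneg_left _ (by positivity)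
          rw [div_le_div_iff₀ hEx0 (by norm_num)]
          linarith
      _ = (X / 200) / (W.totient : ℝ) / 8 := by
          field_simp
          norm_num
      _ ≤ (LP X / (W.totient : ℝ)) / 8 := by
          apply div_le_div_of_nonneg_right _ (by norm_num)
          exact div_le_div_of_nonneg_right g3 hφ.le
  have hbu : IsUnit (b : ZMod W) := (ZMod.isUnit_iff_coprime b W).2 hbW
  have hcls := class_cov X W ps F (b : ZMod W) L w Bd _ Lo g2 hbu hKB (by rw [hLo]; exact hcovX)
    hLo0.le hFw hWw hXL hWX bm hbm2 hLP hfin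
  have hcnt := count_iso' X F (by linarith) (fun n => (n : ZMod W) = b)
  refine ⟨W, b, hWpos, hW700, hbW, hbq, ?_⟩
  have heq : (Icc 1 ⌊3 * X⌋₊).filter (fun n : ℕ => n.Prime ∧ n ≡ b [MOD W] ∧ X < n ∧ Iso F n) =
      (Icc 1 ⌊3 * X⌋₊).filter (fun n : ℕ => n.Prime ∧ (n : ZMod W) = b ∧ X < n ∧ Iso F n) := by
    apply Finset.filter_congr
    intro n _
    rw [cast_eq_iff (b : ZMod W) n b rfl]
  rw [heq]
  set cnt : ℝ := (((Icc 1 ⌊3 * X⌋₊).filter (fun n : ℕ => n.Prime ∧ (n : ZMod W) = b ∧ X < n ∧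
      Iso F n)).card : ℝ) with hcntdef
  have hcnt0 : 0 ≤ cnt := Nat.cast_nonneg _
  have hlog3 : Real.log (3 * X) ≤ 2 * t := by
    rw [Real.log_mul (by norm_num) hX0.ne']
    have : Real.log 3 ≤ 2 := by
      have := Real.log_le_sub_one_of_pos (by norm_num : (0 : ℝ) < 3)
      linarith
    linarith
  have hlog30 : 0 ≤ Real.log (3 * X) := Real.log_nonneg (by linarith)
  have hW0 : (0:ℝ) < W := by exact_mod_cast hWpos
  have hφW : (W.totient : ℝ) ≤ W := by exact_mod_cast Nat.totient_le W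
  have hpp : 2 * Real.sqrt (3 * X) * Real.log (3 * X) ≤ X / (W.totient : ℝ) / Lo / 1600 := by
    have h3 : Real.sqrt (3 * X) ≤ 2 * Real.exp (t / 2) := by
      rw [Real.sqrt_le_left (by positivity), mul_pow, ← Real.exp_nat_mul]
      have : ((2:ℕ):ℝ) * (t / 2) = t := by push_cast; ring
      rw [this, hXt]
      linarith
    have h4 : 2 * Real.sqrt (3 * X) * Real.log (3 * X) ≤ 2 * (2 * Real.exp (t / 2)) * (2 * t) := by
      apply mul_le_mul _ hlog3 hlog30 (by positivity)
      linarith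
    refine h4.trans ?_
    rw [div_div, div_div, le_div_iff₀ (by positivity)]
    have h5 : 2 * (2 * Real.exp (t / 2)) * (2 * t) * ((W.totient : ℝ) * (Lo * 1600)) ≤
        2 * (2 * Real.exp (t / 2)) * (2 * t) * (Real.exp (t / 700) * (Lo * 1600)) := by
      have : (W.totient : ℝ) ≤ Real.exp (t / 700) := hφW.trans hW700
      gcongr
    have h6 : 2 * (2 * Real.exp (t / 2)) * (2 * t) * (Real.exp (t / 700) * (Lo * 1600)) =
        12800 * Lo * t * (Real.exp (t / 2) * Real.exp (t / 700)) := by ring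
    have h7 : 12800 * Lo * t * (Real.exp (t / 2) * Real.exp (t / 700)) ≤
        Real.exp (t / 4) * (Real.exp (t / 2) * Real.exp (t / 700)) := by gcongr
    have h8 : Real.exp (t / 4) * (Real.exp (t / 2) * Real.exp (t / 700)) ≤ X := by
      rw [← hXt, ← Real.exp_add, ← Real.exp_add]
      apply Real.exp_le_exp.2
      linarith
    have h9 : (W.totient : ℝ) * Lo * 1600 = (W.totient : ℝ) * (Lo * 1600) := by ring
    linarith
  have h1 : 3 / 1600 * (X / (W.totient : ℝ) / Lo) ≤ cnt * (2 * t) + X / (W.totient : ℝ) / Lo / 1600 := by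
    have h2 : 3 / 8 * (X / 200 / (W.totient : ℝ)) ≤ 3 / 8 * (LP X / (W.totient : ℝ)) := by
      have g3' : X / 200 ≤ LP X := g3
      gcongr
    have h3 : 3 / 8 * (LP X / (W.totient : ℝ)) ≤ (cnt * (2 * t) + X / (W.totient : ℝ) / Lo / 1600) * Lo := by
      refine hcls.trans ?_
      apply mul_le_mul_of_nonneg_right _ hLo0.le
      refine le_trans (le_of_eq ?_) (hcnt.trans ?_)
      · apply Finset.sum_congr _ (fun _ _ => rfl)
        ext n
        simp only [Finset.mem_filter]
      have h4 : cnt * Real.log (3 * X) ≤ cnt * (2 * t) := mul_le_mul_of_nonneg_left hlog3 hcnt0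
      refine le_trans (le_of_eq (?_ : _ = cnt * Real.log (3 * X) +
        2 * Real.sqrt (3 * X) * Real.log (3 * X))) ?_
      · rw [hcntdef]
        congr!
      linarith
    have h4 : 3 / 1600 * (X / (W.totient : ℝ) / Lo) = 3 / 8 * (X / 200 / (W.totient : ℝ)) / Lo := by
      field_simp
      norm_num
    rw [h4, div_le_iff₀ hLo0]
    linarith
  have h5 : 1 / (1600 * Lo) * (X / ((W.totient : ℝ) * t)) = (X / (W.totient : ℝ) / Lo) * (1 / 800) / (2 * t) := by
    field_simp
    norm_num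
  rw [h5, div_le_iff₀ (by positivity)]
  linarith

end Pool.Agent.K4H19.PR
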