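import Pool.Agent.K4H19.PR.Iso
import Pool.Agent.Y866.PP.Prog2
import Pool.Agent.Y677.RSZ.Top

set_option autoImplicit false
set_option maxHeartbeats 4000000

/-! # Progressions of isolated primes -/

namespace Pool.Agent.K4H19.PR

open Finset Filter
open Pool.Agent.K4H19.FQ (Iso)

open scoped Classical

theorem modEq_sqf (q m a : ℕ) (hq : Squarefree q)
    (h : ∀ p : ℕ, p.Prime → p ∣ q → m ≡ a [MOD p]) : m ≡ a [MOD q] := by
  rw [Nat.modEq_iff_dvd, Int.natCast_dvd, ← Nat.prod_primeFactors_of_squarefree hq]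
  apply Finset.prod_primes_dvd
  · intro p hp
    exact (Nat.prime_of_mem_primeFactors hp).prime
  · intro p hp
    have h1 := h p (Nat.prime_of_mem_primeFactors hp) (Nat.dvd_of_mem_primeFactors hp)
    rw [Nat.modEq_iff_dvd] at h1
    rwa [Int.natCast_dvd] at h1

theorem ev_pow (B : ℕ) : ∀ᶠ t : ℝ in atTop, Real.exp (t / 700) * (2 * t) ^ B ≤ Real.exp (t / 100) := by
  have h := (isLittleO_pow_exp_pos_mul_atTop (k := B) (show (0:ℝ) < 6 / 700 by norm_num)).def
    (show (0:ℝ) < 1 / 2 ^ B by positivity)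
  filter_upwards [h, eventually_ge_atTop 0] with t h1 h2
  rw [Real.norm_of_nonneg (by positivity), Real.norm_of_nonneg (Real.exp_pos _).le] at h1
  have h3 : (2 * t) ^ B ≤ Real.exp (6 / 700 * t) := by
    rw [mul_pow]
    have h4 : (2:ℝ) ^ B * (1 / 2 ^ B * Real.exp (6 / 700 * t)) = Real.exp (6 / 700 * t) := by
      field_simp
    calc (2:ℝ) ^ B * t ^ B ≤ 2 ^ B * (1 / 2 ^ B * Real.exp (6 / 700 * t)) := by gcongr
      _ = _ := h4
  calc Real.exp (t / 700) * (2 * t) ^ B ≤ Real.exp (t / 700) * Real.exp (6 / 700 * t) := by gcongr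
    _ = Real.exp (t / 700 + 6 / 700 * t) := (Real.exp_add _ _).symm
    _ = Real.exp (t / 100) := by congr 1; ring

theorem ev_cnt (c : ℝ) (hc : 0 < c) : ∀ᶠ t : ℝ in atTop,
    Real.exp (99 / 100 * t) ≤ c * (Real.exp t / (Real.exp (t / 700) * t)) := by
  have h := (isLittleO_pow_exp_pos_mul_atTop (k := 1) (show (0:ℝ) < 6 / 700 by norm_num)).def hc
  filter_upwards [h, eventually_gt_atTop 0] with t h1 h2
  rw [pow_one, Real.norm_of_nonneg h2.le, Real.norm_of_nonneg (Real.exp_pos _).le] at h1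
  rw [mul_div_assoc', le_div_iff₀ (by positivity)]
  calc Real.exp (99 / 100 * t) * (Real.exp (t / 700) * t) ≤
        Real.exp (99 / 100 * t) * (Real.exp (t / 700) * (c * Real.exp (6 / 700 * t))) := by gcongr
    _ = c * (Real.exp (99 / 100 * t) * Real.exp (t / 700) * Real.exp (6 / 700 * t)) := by ring
    _ = c * Real.exp (99 / 100 * t + t / 700 + 6 / 700 * t) := by rw [Real.exp_add, Real.exp_add]
    _ = c * Real.exp t := by congr 2; ring

/-- the starting terms of the progressions -/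
def Start (k : ℕ) (D : ℝ) (G : ℕ → Prop) (p : ℕ) : Prop :=
  ∃ d : ℕ, 1 ≤ d ∧ (d : ℝ) ≤ D ∧ ∀ j < k, G (p + j * d)

/-- the greedy step: dense subsets of the isolated primes of a class -/
theorem extract (k : ℕ) (hk : 1 ≤ k) (ρ : ℕ) (hρ : 1 ≤ ρ) (κ : ℝ) (hκ : 0 < κ) : ∀ᶠ X : ℝ in atTop,
    ∀ W b : ℕ, 0 < W → (W : ℝ) ≤ Real.exp (Real.log X / 700) → b.Coprime W → ∀ Q : ℕ → Prop,
    κ * (X / ((W.totient : ℝ) * Real.log X)) ≤
        (((Icc 1 ⌊3 * X⌋₊).filter (fun n : ℕ => n.Prime ∧ n ≡ b [MOD W] ∧ X < n ∧ Q n)).card : ℝ) →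
    ∀ χ : ℕ → Fin ρ,
    X ^ (99 / 100 : ℝ) ≤ (((Icc 1 ⌊3 * X⌋₊).filter (fun p : ℕ => Start k (X ^ (1 / 100 : ℝ))
      (fun n => n.Prime ∧ n ≡ b [MOD W] ∧ X < n ∧ (n : ℝ) ≤ 3 * X ∧ Q n ∧ χ n = χ p) p)).card : ℝ) := by
  have hρ0 : (0:ℝ) < ρ := by exact_mod_cast hρ
  obtain ⟨δ, hδ⟩ : ∃ δ : ℝ, δ = κ / (12 * ρ) := ⟨_, rfl⟩
  have hδ0 : 0 < δ := by rw [hδ]; positivity
  obtain ⟨B, N₀, hP⟩ := Pool.Agent.Y866.PP.prog_of_eng Pool.Agent.Y677.RSZ.eng_all k 2 (1 / 2) δ
    (by norm_num) hδ0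
  have hlog := Real.tendsto_log_atTop
  filter_upwards [eventually_ge_atTop (4:ℝ), hlog.eventually (ev_pow B),
    hlog.eventually (ev_cnt (κ / (4 * ρ)) (by positivity)), hlog.eventually_ge_atTop (100 + 2 * N₀)] with
    X g1 g2 g3 g4
  intro W b hW0 hW hbW Q hcnt χ
  set t := Real.log X with ht
  have hX0 : 0 < X := by linarith
  have hXt : Real.exp t = X := Real.exp_log hX0
  have hN₀ : (0:ℝ) ≤ N₀ := Nat.cast_nonneg _
  have ht100 : 100 ≤ t := by linarith
  have ht0 : 0 < t := by linarith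
  have hWr : (0:ℝ) < W := by exact_mod_cast hW0
  have hφ : (0:ℝ) < W.totient := by exact_mod_cast Nat.totient_pos.2 hW0
  -- the class
  obtain ⟨b', hb'⟩ : ∃ b', b' = b % W := ⟨_, rfl⟩
  have hb'W : b' < W := hb' ▸ Nat.mod_lt _ hW0
  have hb'm : b' ≡ b [MOD W] := hb' ▸ Nat.mod_modEq _ _
  have hb'c : b'.Coprime W := by
    unfold Nat.Coprime
    rw [hb'm.gcd_eq]
    exact hbW
  -- the number of the integers
  set N : ℕ := ⌊3 * X / W⌋₊ with hN
  have hN1 : (N:ℝ) ≤ 3 * X / W := Nat.floor_le (by positivity)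
  have hN2 : 3 * X / W < N + 1 := Nat.lt_floor_add_one _
  have hXW : Real.exp (t * (699 / 700)) ≤ X / W := by
    rw [le_div_iff₀ hWr, ← hXt]
    calc Real.exp (t * (699 / 700)) * W ≤ Real.exp (t * (699 / 700)) * Real.exp (t / 700) := by gcongr
      _ = Real.exp t := by rw [← Real.exp_add]; congr 1; ring
  have hexp1 : 1 ≤ Real.exp (t * (699 / 700)) := by
    rw [← Real.exp_zero]; apply Real.exp_le_exp.2; positivity
  have hN3 : Real.exp (t * (699 / 700)) ≤ N := by
    have h1 : 3 * X / W = 3 * (X / W) := by ring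
    rw [h1] at hN2
    linarith
  have hNt : t ≤ N := by
    refine le_trans ?_ hN3
    have h2 : t / 2 + t / 2 ≤ Real.exp (t * (699 / 700)) := by
      have h3 : t * (699 / 700) / 1 + 1 ≤ Real.exp (t * (699 / 700)) := by
        have := Real.add_one_le_exp (t * (699 / 700))
        linarith
      have h4 : (t * (699 / 700)) ^ 2 / 2 ≤ Real.exp (t * (699 / 700)) := by
        have := Real.pow_div_factorial_le_exp (t * (699 / 700)) (by positivity) 2
        simpa [Nat.factorial] using this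
      nlinarith
    linarith
  have hNN₀ : N₀ ≤ N := by
    have : (N₀:ℝ) ≤ N := by linarith
    exact_mod_cast this
  have hN0 : (0:ℝ) < N := by linarith
  have hlogN : t / 2 ≤ Real.log N := by
    have h1 := Real.log_le_log (Real.exp_pos _) hN3
    rw [Real.log_exp] at h1
    linarith
  have hlogN0 : 0 < Real.log N := by linarith
  have hlogN2 : Real.log N ≤ 2 * t := by
    have h1 : (N:ℝ) ≤ 3 * X := by
      refine hN1.trans (div_le_self (by positivity) ?_)
      exact_mod_cast hW0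
    have h2 := Real.log_le_log hN0 h1
    rw [Real.log_mul (by norm_num) hX0.ne'] at h2
    have : Real.log 3 ≤ 2 := by
      have := Real.log_le_sub_one_of_pos (by norm_num : (0 : ℝ) < 3)
      linarith
    linarith
  -- the sets
  set I : Finset ℕ := (Icc 1 ⌊3 * X⌋₊).filter (fun n : ℕ => n.Prime ∧ n ≡ b [MOD W] ∧ X < n ∧ Q n) with hI
  obtain ⟨c, -, hc⟩ := Finset.exists_le_card_fiber_of_mul_le_card_of_maps_to (s := I) (t := univ) (f := χ)
    (n := I.card / ρ) (fun _ _ => mem_univ _) (by exact ⟨⟨0, hρ⟩, mem_univ _⟩) (by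
      rw [Finset.card_univ, Fintype.card_fin]
      exact Nat.mul_div_le _ _)
  set G : ℕ → Prop := fun n => n.Prime ∧ n ≡ b [MOD W] ∧ X < n ∧ (n : ℝ) ≤ 3 * X ∧ Q n ∧ χ n = c with hG
  set S : Finset ℕ := (Ioc 0 N).filter (fun n => G (b' + W * n)) with hS
  have hmapI : (I.filter (fun x => χ x = c)).card ≤ S.card := by
    apply card_le_card_of_injOn (fun m => (m - b') / W)
    · intro m hm
      rw [mem_coe, mem_filter, hI, mem_filter, mem_Icc] at hm
      obtain ⟨⟨⟨h1, h2⟩, h3, h4, h5, h6⟩, h7⟩ := hm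
      have h8 : (m:ℝ) ≤ 3 * X := (Nat.le_floor_iff (by positivity)).1 h2
      have h9 : (b':ℝ) < m := by
        have e1 : (b':ℝ) < W := by exact_mod_cast hb'W
        have e2 : Real.exp (t / 700) ≤ X := by
          rw [← hXt]; apply Real.exp_le_exp.2; linarith
        linarith
      have h10 : b' < m := by exact_mod_cast h9
      have h11 : W ∣ m - b' := (Nat.modEq_iff_dvd' h10.le).1 (hb'm.trans h4.symm)
      obtain ⟨n, hn⟩ := h11
      have h12 : (m - b') / W = n := by rw [hn]; exact Nat.mul_div_cancel_left _ hW0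
      have h13 : b' + W * n = m := by omega
      rw [mem_coe, hS, mem_filter, mem_Ioc]
      simp only [h12]
      refine ⟨⟨?_, ?_⟩, ?_⟩
      · rcases Nat.eq_zero_or_pos n with h | h
        · rw [h, mul_zero] at h13; omega
        · exact h
      · apply Nat.le_floor
        rw [le_div_iff₀ hWr]
        have h14 : ((b' + W * n : ℕ):ℝ) = m := by exact_mod_cast h13
        push_cast at h14
        have h15 : (0:ℝ) ≤ b' := Nat.cast_nonneg _
        nlinarith
      · rw [h13]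
        exact ⟨h3, h4, h5, h8, h6, h7⟩
    · intro m hm m' hm' hmm
      have aux : ∀ m ∈ I, b' < m ∧ W ∣ m - b' := by
        intro m hm
        rw [hI, mem_filter, mem_Icc] at hm
        obtain ⟨⟨h1, h2⟩, h3, h4, h5, h6⟩ := hm
        have h9 : (b':ℝ) < m := by
          have e1 : (b':ℝ) < W := by exact_mod_cast hb'W
          have e2 : Real.exp (t / 700) ≤ X := by
            rw [← hXt]; apply Real.exp_le_exp.2; linarith
          linarith
        have h10 : b' < m := by exact_mod_cast h9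
        exact ⟨h10, (Nat.modEq_iff_dvd' h10.le).1 (hb'm.trans h4.symm)⟩
      rw [mem_coe, mem_filter] at hm hm'
      obtain ⟨e1, e2⟩ := aux m hm.1
      obtain ⟨e3, e4⟩ := aux m' hm'.1
      simp only at hmm
      have h5 := Nat.div_mul_cancel e2
      have h6 := Nat.div_mul_cancel e4
      rw [hmm] at h5
      omega
  have hScard : κ / (2 * ρ) * (X / ((W.totient : ℝ) * t)) * 2 - 1 ≤ (S.card : ℝ) := by
    have h1 : (I.card : ℝ) / ρ - 1 ≤ ((I.card / ρ : ℕ) : ℝ) := by
      have h2 := Nat.div_add_mod I.card ρ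
      have h3 := Nat.mod_lt I.card (show 0 < ρ by omega)
      have h4 : (I.card : ℝ) = ρ * ((I.card / ρ : ℕ) : ℝ) + ((I.card % ρ : ℕ) : ℝ) := by exact_mod_cast h2.symm
      have h5 : ((I.card % ρ : ℕ) : ℝ) ≤ ρ := by exact_mod_cast h3.le
      rw [sub_le_iff_le_add, div_le_iff₀ hρ0]
      linarith
    have h2 : ((I.card / ρ : ℕ) : ℝ) ≤ S.card := by exact_mod_cast hc.trans hmapI
    have h3 : κ * (X / ((W.totient : ℝ) * t)) / ρ ≤ (I.card : ℝ) / ρ := by gcongr
    have h4 : κ / (2 * ρ) * (X / ((W.totient : ℝ) * t)) * 2 = κ * (X / ((W.totient : ℝ) * t)) / ρ := by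
      field_simp
    linarith
  set Y : ℝ := X / ((W.totient : ℝ) * t) with hY
  have hY0 : 0 < Y := by positivity
  have hYbig : Real.exp (99 / 100 * t) ≤ κ / (4 * ρ) * Y := by
    refine g3.trans ?_
    rw [hY, hXt]
    have h1 : (W.totient : ℝ) ≤ Real.exp (t / 700) := le_trans (by exact_mod_cast Nat.totient_le W) hW
    gcongr
  set A : Finset ℕ := S.filter (fun n => ∃ d : ℕ, 1 ≤ d ∧ (d : ℝ) ≤ Real.log N ^ B ∧ ∀ j < k, n + j * d ∈ S) with hA
  have hSA : ((S \ A).card : ℝ) < δ * (N * (W / (W.totient : ℝ)) / Real.log N) := by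
    by_contra hcon
    push Not at hcon
    obtain ⟨n, d, hd1, hd2, hnd⟩ := hP N 0 W b' hNN₀ hW0 hb'c (by
      have h1 : (W:ℝ) * 2 ≤ N := by
        refine le_trans ?_ hN3
        have h2 : Real.exp (t / 700) * 2 ≤ Real.exp (t / 700) * Real.exp (t * (698 / 700)) := by
          have h3 := Real.add_one_le_exp (t * (698 / 700))
          gcongr
          linarith
        have h4 : Real.exp (t / 700) * Real.exp (t * (698 / 700)) = Real.exp (t * (699 / 700)) := by
          rw [← Real.exp_add]; congr 1; ring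
        linarith
      have h2 : W * 2 ≤ N := by exact_mod_cast h1
      have h3 : 1 ≤ N := by omega
      have h4 : b' + W * (0 + N) ≤ W * 2 * N := by nlinarith
      calc b' + W * (0 + N) ≤ W * 2 * N := h4
        _ ≤ N * N := Nat.mul_le_mul_right _ h2
        _ = N ^ 2 := by ring) (S \ A) (by
      intro n hn
      rw [Finset.mem_sdiff, hS, mem_filter] at hn
      rw [zero_add]
      exact hn.1.1) (by
      intro n hn
      rw [Finset.mem_sdiff, hS, mem_filter] at hn
      obtain ⟨⟨-, h1, h2, h3, h4⟩, -⟩ := hn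
      refine ⟨h1, lt_of_le_of_lt ?_ h3⟩
      rw [← Real.sqrt_eq_rpow, Real.sqrt_le_left hX0.le]
      have h5 : (N:ℝ) ≤ 3 * X := by
        refine hN1.trans (div_le_self (by positivity) ?_)
        exact_mod_cast hW0
      nlinarith) hcon
    have h0 := hnd 0 (by omega)
    rw [zero_mul, add_zero, Finset.mem_sdiff] at h0
    apply h0.2
    rw [hA, mem_filter]
    exact ⟨h0.1, d, hd1, hd2, fun j hj => (Finset.mem_sdiff.1 (hnd j hj)).1⟩
  have hSA2 : δ * (N * (W / (W.totient : ℝ)) / Real.log N) ≤ κ / (2 * ρ) * Y := by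
    have h1 : (N:ℝ) * (W / (W.totient : ℝ)) ≤ 3 * X / (W.totient : ℝ) := by
      rw [mul_div_assoc', div_le_div_iff_of_pos_right hφ]
      rw [le_div_iff₀ hWr] at hN1
      exact hN1
    calc δ * (N * (W / (W.totient : ℝ)) / Real.log N) ≤ δ * (3 * X / (W.totient : ℝ) / (t / 2)) := by gcongr
      _ = κ / (2 * ρ) * Y := by
        rw [hδ, hY]
        field_simp
        ring
  have hAcard : Real.exp (99 / 100 * t) ≤ (A.card : ℝ) := by
    have h1 : S.card = (S \ A).card + A.card := by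
      rw [card_sdiff_add_card_eq_card (filter_subset _ _)]
    have h2 : (S.card : ℝ) = (S \ A).card + A.card := by exact_mod_cast h1
    have h3 : 1 ≤ Real.exp (99 / 100 * t) := by
      rw [← Real.exp_zero]; apply Real.exp_le_exp.2; positivity
    have h4 : κ / (2 * ρ) * Y = 2 * (κ / (4 * ρ) * Y) := by
      field_simp
      ring
    linarith
  have hX99 : X ^ (99 / 100 : ℝ) = Real.exp (99 / 100 * t) := by
    rw [← hXt, ← Real.exp_mul]; congr 1; ring
  rw [hX99]
  refine hAcard.trans ?_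
  have hX1 : X ^ (1 / 100 : ℝ) = Real.exp (t / 100) := by
    rw [← hXt, ← Real.exp_mul]; congr 1; ring
  have hfin : A.card ≤ ((Icc 1 ⌊3 * X⌋₊).filter (fun p : ℕ => Start k (X ^ (1 / 100 : ℝ))
      (fun n => n.Prime ∧ n ≡ b [MOD W] ∧ X < n ∧ (n : ℝ) ≤ 3 * X ∧ Q n ∧ χ n = χ p) p)).card := by
    apply card_le_card_of_injOn (fun n => b' + W * n)
    · intro n hn
      rw [mem_coe, hA, mem_filter] at hn
      obtain ⟨h1, d, hd1, hd2, hd3⟩ := hn
      have h2 : G (b' + W * n) := (mem_filter.1 h1).2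
      rw [mem_coe, mem_filter, mem_Icc]
      refine ⟨⟨h2.1.pos, Nat.le_floor h2.2.2.2.1⟩, W * d, ?_, ?_, ?_⟩
      · exact Nat.mul_pos hW0 hd1
      · rw [hX1]
        push_cast
        refine le_trans ?_ g2
        have h3 : (d:ℝ) ≤ (2 * t) ^ B := hd2.trans (pow_le_pow_left₀ hlogN0.le hlogN2 B)
        gcongr
      · intro j hj
        have h3 : G (b' + W * (n + j * d)) := (mem_filter.1 (hd3 j hj)).2
        have h4 : b' + W * n + j * (W * d) = b' + W * (n + j * d) := by ring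
        show _ ∧ _
        simp only [h4]
        exact ⟨h3.1, h3.2.1, h3.2.2.1, h3.2.2.2.1, h3.2.2.2.2.1, h3.2.2.2.2.2.trans h2.2.2.2.2.2.symm⟩
    · intro n _ n' _ hnn
      simp only at hnn
      have h1 : W * n = W * n' := by omega
      exact Nat.eq_of_mul_eq_mul_left hW0 h1
  exact_mod_cast hfin

/-- **Progressions of isolated primes.** -/
theorem main_prog (k : ℕ) (hk : 1 ≤ k) (ρ : ℕ) (hρ : 1 ≤ ρ) (q : ℕ) (hq : Squarefree q) (l : ℝ) (hl : 0 < l) :
    ∀ᶠ X : ℝ in atTop, ∀ a : ℕ, a.Coprime q → ∀ χ : ℕ → Fin ρ,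
    X ^ (99 / 100 : ℝ) ≤ (((Icc 1 ⌊3 * X⌋₊).filter (fun p : ℕ => Start k (X ^ (1 / 100 : ℝ))
      (fun n => n.Prime ∧ n ≡ a [MOD q] ∧ X < n ∧ (n : ℝ) ≤ 3 * X ∧ Iso ⌊l * RR X⌋₊ n ∧ χ n = χ p) p)).card : ℝ) := by
  obtain ⟨κ, hκ, hiso⟩ := iso_class q (Nat.pos_of_ne_zero hq.ne_zero) l hl
  filter_upwards [hiso, extract k hk ρ hρ κ hκ] with X h1 h2
  intro a ha χ
  obtain ⟨W, b, hW0, hW, hb, hbq, hcnt⟩ := h1 a ha
  refine (h2 W b hW0 hW hb _ hcnt χ).trans ?_
  apply Nat.cast_le.2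
  apply card_le_card
  intro p hp
  rw [mem_filter] at hp ⊢
  obtain ⟨hp1, d, hd1, hd2, hd3⟩ := hp
  refine ⟨hp1, d, hd1, hd2, fun j hj => ?_⟩
  obtain ⟨e1, e2, e3, e4, e5, e6⟩ := hd3 j hj
  refine ⟨e1, ?_, e3, e4, e5, e6⟩
  apply modEq_sqf q _ a hq
  intro r hr hrq
  exact (e2.of_dvd (hbq r hr hrq).1).trans (hbq r hr hrq).2

end Pool.Agent.K4H19.PR
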